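import Pool.Agent.ANO.Asm.Deck

/-!
# ANO: the model map as a homeomorphism

`MP_5e77d9_an`.
-/

set_option autoImplicit false

open Set Filter Topology
open scoped UpperHalfPlane MatrixGroups

namespace Pool.Agent.ANO

variable {r k : ℕ}

/-- `A` acting on `ℝ^k`, a homeomorphism. -/
noncomputable def matHomeo (A : Matrix (Fin k) (Fin k) ℤ) (hA : IsUnit A.det) :
    (Fin k → ℝ) ≃ₜ (Fin k → ℝ) where
  toFun v := (A.map (Int.cast : ℤ → ℝ)).mulVec v
  invFun v := (A⁻¹.map (Int.cast : ℤ → ℝ)).mulVec v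
  left_inv v := by
    have h : (A⁻¹.map (Int.cast : ℤ → ℝ)) * (A.map (Int.cast : ℤ → ℝ)) = 1 := by
      have := congrArg (fun M : Matrix (Fin k) (Fin k) ℤ => (Int.castRingHom ℝ).mapMatrix M)
        (Matrix.nonsing_inv_mul A hA)
      simpa [map_mul] using this
    simp only [Matrix.mulVec_mulVec, h, Matrix.one_mulVec]
  right_inv v := by
    have h : (A.map (Int.cast : ℤ → ℝ)) * (A⁻¹.map (Int.cast : ℤ → ℝ)) = 1 := by
      have := congrArg (fun M : Matrix (Fin k) (Fin k) ℤ => (Int.castRingHom ℝ).mapMatrix M)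
        (Matrix.mul_nonsing_inv A hA)
      simpa [map_mul] using this
    simp only [Matrix.mulVec_mulVec, h, Matrix.one_mulVec]
  continuous_toFun := by fun_prop
  continuous_invFun := by fun_prop

/-- The model as a homeomorphism of the universal cover. -/
noncomputable def modelHomeo (S : Fin r → PASurface) (A : Matrix (Fin k) (Fin k) ℤ)
    (hA : IsUnit A.det) : X r k ≃ₜ X r k :=
  (Homeomorph.piCongrRight fun i => (S i).f).prodCongr (matHomeo A hA)

theorem modelHomeo_apply (S : Fin r → PASurface) (A : Matrix (Fin k) (Fin k) ℤ)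
    (hA : IsUnit A.det) (p : X r k) : modelHomeo S A hA p = model S A p := rfl

theorem coe_modelHomeo (S : Fin r → PASurface) (A : Matrix (Fin k) (Fin k) ℤ)
    (hA : IsUnit A.det) : ⇑(modelHomeo S A hA) = model S A := rfl

/-- Powers of a homeomorphism are iterates. -/
theorem coe_pow_eq_iterate {Y : Type*} [TopologicalSpace Y] (F : Y ≃ₜ Y) (n : ℕ) :
    ⇑(F ^ n) = (⇑F)^[n] := by
  induction n with
  | zero => rfl
  | succ n ih =>
    rw [pow_succ, Function.iterate_succ, ← ih]
    rfl

theorem coe_modelHomeo_pow (S : Fin r → PASurface) (A : Matrix (Fin k) (Fin k) ℤ)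
    (hA : IsUnit A.det) (n : ℕ) : ⇑(modelHomeo S A hA ^ n) = (model S A)^[n] := by
  rw [coe_pow_eq_iterate]
  rfl

theorem continuous_model (S : Fin r → PASurface) (A : Matrix (Fin k) (Fin k) ℤ)
    (hA : IsUnit A.det) : Continuous (model S A) := (modelHomeo S A hA).continuous

end Pool.Agent.ANO
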