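import Pool.Agent.ANO.Iface
import Pool.Agent.ANO.Asm.Model

/-!
# ANO: the abstract setting for an Anosov diffeomorphism homotopic to the model

`MP_5e77d9_an`.
-/

set_option autoImplicit false

open Set Filter Topology
open scoped UpperHalfPlane MatrixGroups

namespace Pool.Agent.ANO

variable {r k : ℕ}

theorem Homotopic.iterate {S : Fin r → PASurface} {G₀ G : X r k → X r k}
    (h : Homotopic S G₀ G) (n : ℕ) : Homotopic S G₀^[n] G^[n] := by
  induction n with
  | zero => exact fun g hg => ⟨g, hg, rfl, rfl⟩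
  | succ n ih =>
    intro g hg
    obtain ⟨g1, hg1, h1, h1'⟩ := h g hg
    obtain ⟨g2, hg2, h2, h2'⟩ := ih g1 hg1
    refine ⟨g2, hg2, ?_, ?_⟩
    · rw [Function.iterate_succ, Function.comp_assoc, h1, ← Function.comp_assoc, h2,
        Function.comp_assoc]
    · rw [Function.iterate_succ, Function.comp_assoc, h1', ← Function.comp_assoc, h2',
        Function.comp_assoc]

/-- A homotopy in terms of the elements of `deckGroup`. -/
theorem Homotopic.conj {S : Fin r → PASurface} {G₀ G : X r k → X r k}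
    (h : Homotopic S G₀ G) {g : X r k ≃ᵢ X r k} (hg : g ∈ deckGroup S k) :
    ∃ g' ∈ deckGroup S k, (∀ x, G (g x) = g' (G x)) ∧ ∀ x, G₀ (g x) = g' (G₀ x) := by
  obtain ⟨g1, hg1, h1, h1'⟩ := h g hg
  obtain ⟨g', hg', rfl⟩ := hg1.exists_mem
  exact ⟨g', hg', fun x => congrFun h1' x, fun x => congrFun h1 x⟩

/-- Two continuous maps which are homotopic in this sense have bounded distance. -/
theorem Homotopic.bounded {S : Fin r → PASurface} {G₀ G : X r k → X r k}
    (h : Homotopic S G₀ G) (hc₀ : Continuous G₀) (hc : Continuous G) :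
    ∃ C : ℝ, ∀ x, dist (G x) (G₀ x) ≤ C := by
  obtain ⟨K, hK, hcov⟩ := cocompact S k
  obtain ⟨C, hC⟩ := (hK.image (hc.dist hc₀)).bddAbove
  refine ⟨C, fun x => ?_⟩
  obtain ⟨g, hg, hx⟩ := hcov x
  obtain ⟨g', -, h1, h2⟩ := h.conj hg
  have h3 : dist (G (g x)) (G₀ (g x)) ≤ C := hC ⟨g x, hx, rfl⟩
  rw [h1, h2, g'.dist_eq] at h3
  exact h3

theorem anosov_conj' {S : Fin r → PASurface} {F : X r k ≃ₜ X r k} (hF : IsAnosovLift S F)
    (n : ℕ) {g' : X r k → X r k} (hg' : IsDeck S k g') :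
    ∃ g, IsDeck S k g ∧ ⇑(F ^ n) ∘ g = g' ∘ ⇑(F ^ n) := by
  induction n generalizing g' with
  | zero => exact ⟨g', hg', rfl⟩
  | succ n ih =>
    obtain ⟨g1, hg1, h1⟩ := ih hg'
    obtain ⟨g2, hg2, h2⟩ := hF.2.2.2.1 g1 hg1
    refine ⟨g2, hg2, ?_⟩
    have h3 : ⇑(F ^ (n + 1)) = ⇑(F ^ n) ∘ ⇑F := by
      rw [pow_succ]; rfl
    rw [h3, Function.comp_assoc, h2, ← Function.comp_assoc, h1, Function.comp_assoc]

/-- Conversely every deck transformation is of the form `g'`. -/
theorem Homotopic.conj' {S : Fin r → PASurface} {F : X r k ≃ₜ X r k} (hF : IsAnosovLift S F)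
    {n : ℕ} {G₀ : X r k → X r k} (h : Homotopic S G₀ (F ^ n : X r k ≃ₜ X r k))
    {g' : X r k ≃ᵢ X r k} (hg' : g' ∈ deckGroup S k) :
    ∃ g ∈ deckGroup S k, (∀ x, (F ^ n) (g x) = g' ((F ^ n) x)) ∧ ∀ x, G₀ (g x) = g' (G₀ x) := by
  obtain ⟨g1, hg1, h1⟩ := anosov_conj' hF n hg'
  obtain ⟨g, hg, rfl⟩ := hg1.exists_mem
  obtain ⟨g2, hg2, h2, h3⟩ := h.conj hg
  refine ⟨g, hg, fun x => congrFun h1 x, fun x => ?_⟩
  rw [h3]
  obtain ⟨y, hy⟩ := (F ^ n).surjective (G₀ x)
  rw [← hy, ← h2]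
  exact congrFun h1 y

theorem pow_mul_eq_iterate (F : X r k ≃ₜ X r k) (n N : ℕ) :
    ⇑(F ^ (n * N)) = (⇑(F ^ n))^[N] := by
  rw [pow_mul, coe_pow_eq_iterate]

theorem Homotopic.pow {S : Fin r → PASurface} {F : X r k ≃ₜ X r k} {n : ℕ}
    {G₀ : X r k → X r k} (h : Homotopic S G₀ (F ^ n : X r k ≃ₜ X r k)) (N : ℕ) :
    Homotopic S G₀^[N] (F ^ (n * N) : X r k ≃ₜ X r k) := by
  rw [pow_mul_eq_iterate]
  exact h.iterate N

/-- The abstract setting of the core. -/
noncomputable def mkSetup (S : Fin r → PASurface) (A : Matrix (Fin k) (Fin k) ℤ)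
    (hA : IsHyperbolicMatrix A) (Gm : Geom S A) (F : X r k ≃ₜ X r k) (hF : IsAnosovLift S F)
    (n N0 : ℕ) (hn : 0 < n) (hN0 : 0 < N0)
    (hh : Homotopic S (model S A) (F ^ n : X r k ≃ₜ X r k))
    (hexp : ExpShadow (F ^ (n * N0) : X r k ≃ₜ X r k)) (hidx : IndexStatement) :
    Core.Setup (X r k) where
  𝒢 := deckGroup S k
  F := F ^ (n * N0)
  F0 := modelHomeo S A hA.1 ^ N0
  conj := by
    intro g hg
    rw [coe_modelHomeo_pow]
    exact (hh.pow N0).conj hg
  conj' := by
    intro g' hg'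
    rw [coe_modelHomeo_pow]
    exact (hh.pow N0).conj' hF hg'
  cocompact := cocompact S k
  near := by
    have h1 := (hh.pow N0).bounded (((continuous_model S A hA.1).iterate N0))
      (F ^ (n * N0)).continuous
    rw [coe_modelHomeo_pow]
    exact h1
  near' := by
    have h1 : Homotopic S (modelHomeo S A hA.1 ^ N0).symm (F ^ (n * N0)).symm := by
      intro g' hg'
      obtain ⟨g'', hg'', rfl⟩ := hg'.exists_mem
      obtain ⟨g, hg, h2, h3⟩ := (hh.pow N0).conj' hF hg''
      refine ⟨g, hg, ?_, ?_⟩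
      · funext x
        have h4 := h3 ((modelHomeo S A hA.1 ^ N0).symm x)
        rw [← coe_modelHomeo_pow S A hA.1, Homeomorph.apply_symm_apply] at h4
        rw [Function.comp_apply, ← h4, Homeomorph.symm_apply_apply, Function.comp_apply]
      · funext x
        have h4 := h2 ((F ^ (n * N0)).symm x)
        rw [Homeomorph.apply_symm_apply] at h4
        rw [Function.comp_apply, ← h4, Homeomorph.symm_apply_apply, Function.comp_apply]
    exact h1.bounded (modelHomeo S A hA.1 ^ N0).symm.continuous (F ^ (n * N0)).symm.continuous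
  DU := Gm.DU
  DS := Gm.DS
  DU_nonneg := Gm.DU_nonneg
  DS_nonneg := Gm.DS_nonneg
  DU_symm := Gm.DU_symm
  DS_symm := Gm.DS_symm
  DU_triangle := Gm.DU_triangle
  DS_triangle := Gm.DS_triangle
  DU_inv := fun g hg => Gm.DU_inv g hg
  DS_inv := fun g hg => Gm.DS_inv g hg
  lam := Gm.lam ^ N0
  one_lt_lam := one_lt_pow₀ Gm.one_lt_lam hN0.ne'
  DU_expand := by
    intro x y
    rw [coe_modelHomeo_pow]
    have h0 : (0 : ℝ) ≤ Gm.lam := le_trans zero_le_one Gm.one_lt_lam.le
    have h1 : ∀ N : ℕ, ∀ x y, Gm.lam ^ N * Gm.DU x y ≤ Gm.DU ((model S A)^[N] x) ((model S A)^[N] y) := by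
      intro N
      induction N with
      | zero => intro x y; simp
      | succ N ih =>
        intro x y
        rw [Function.iterate_succ, Function.comp_apply, Function.comp_apply, pow_succ, mul_assoc]
        exact le_trans (mul_le_mul_of_nonneg_left (Gm.DU_expand x y) (pow_nonneg h0 N)) (ih _ _)
    exact h1 N0 x y
  DS_expand := by
    intro x y
    have h0 : (0 : ℝ) ≤ Gm.lam := le_trans zero_le_one Gm.one_lt_lam.le
    have h1 : ∀ N : ℕ, ∀ x y, Gm.lam ^ N * Gm.DS ((model S A)^[N] x) ((model S A)^[N] y) ≤ Gm.DS x y := by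
      intro N
      induction N with
      | zero => intro x y; simp
      | succ N ih =>
        intro x y
        rw [Function.iterate_succ', Function.comp_apply, Function.comp_apply, pow_succ, mul_assoc]
        exact le_trans (mul_le_mul_of_nonneg_left (Gm.DS_expand _ _) (pow_nonneg h0 N)) (ih _ _)
    have h2 := h1 N0 ((modelHomeo S A hA.1 ^ N0).symm x) ((modelHomeo S A hA.1 ^ N0).symm y)
    rw [← coe_modelHomeo_pow S A hA.1, Homeomorph.apply_symm_apply, Homeomorph.apply_symm_apply]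
      at h2
    exact h2
  upper := Gm.upper
  proper := Gm.proper
  eq_of_zero := Gm.eq_of_zero
  e0 := hexp.1.choose
  e0_pos := hexp.1.choose_spec.1
  expansive := hexp.1.choose_spec.2
  shadowing := hexp.2
  index := by
    intro g hg m hm q hq
    have hM : 0 < n * N0 * m := Nat.mul_pos (Nat.mul_pos hn hN0) hm
    have hM0 : 0 < N0 * m := Nat.mul_pos hN0 hm
    have h1 : Homotopic S (model S A)^[N0 * m] (F ^ (n * N0 * m) : X r k ≃ₜ X r k) := by
      rw [mul_assoc]
      exact hh.pow (N0 * m)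
    obtain ⟨z, hz⟩ := hidx r k S A Gm hA F hF (n * N0 * m) (N0 * m) hM hM0 h1 g hg q (by
      rw [pow_mul]
      exact hq)
    refine ⟨z, ?_⟩
    rw [← pow_mul, coe_modelHomeo_pow]
    exact hz

end Pool.Agent.ANO
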